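import Pool.Agent.V11258.UR.Borel

set_option autoImplicit false

/-!
# A representable function on the Turing degrees that is not uniformly representable

Reals are functions `ℕ → ℕ`. `LeT y x` is `y ≤_T x` (Mathlib's `TuringReducible`). The `i`-th
Turing functional is given by the `i`-th program `Denumerable.ofNat Code i`: `Red c x y` says that
the program `c`, run on the inputs `(n, σ)` with `σ` a finite initial segment of `x`, outputs `y n`
for at least one `σ` and never outputs another value. `x ≡_T y` via `e = ⟨i, j⟩` is `Via e x y`.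

There is a Borel function `F₀` with `x ≡_T y → F₀ x ≡_T F₀ y`, so that `F₀` represents a function
`f` on the Turing degrees, but no `F` with the property of Baire which represents `f` is uniformly
invariant.

`F₀`: there is a perfect set of reals `Q z`, `z ∈ 2^ω`, such that `Q z ≡_T Q z'` if and only if `z`
and `z'` are equal up to finitely many bits, by uniform reductions for each finite change. If `x`
is Turing equivalent to some `Q z` then `F₀ x` is the sequence of the even bits of such a `z`, and
`F₀ x = 0` otherwise. If `F` represents the same function and is uniform, then `H z = F (Q z)` is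
either constant or injective on a comeager set, since the exchange of two initial segments of `z`
acts on the values `H z`; neither is possible when `H z` is equivalent to the even half of `z`.
-/

namespace Pool.Agent.Results.MP_f59448_lc.NotUniform

open Nat.Partrec Pool.Agent.V11258.UR

/-- `x ≡_T y` via `e = ⟨i, j⟩`: the `i`-th functional reduces `y` to `x` and the `j`-th reduces
`x` to `y`. -/
def Via (e : ℕ) (x y : ℕ → ℕ) : Prop :=
  Red (Denumerable.ofNat Code e.unpair.1) x y ∧ Red (Denumerable.ofNat Code e.unpair.2) y x

theorem result :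
    -- the enumeration of the Turing functionals
    (∀ x y : ℕ → ℕ, LeT y x ↔ ∃ i : ℕ, Red (Denumerable.ofNat Code i) x y) ∧
    ∃ F₀ : (ℕ → ℕ) → (ℕ → ℕ), Measurable F₀ ∧
      -- `F₀` represents a function on the Turing degrees
      (∀ x y : ℕ → ℕ, LeT x y → LeT y x → LeT (F₀ x) (F₀ y) ∧ LeT (F₀ y) (F₀ x)) ∧
      -- let `F` have the property of Baire along all continuous images of Cantor space
      ∀ F : (ℕ → ℕ) → (ℕ → ℕ),
        (∀ φ : (ℕ → Bool) → (ℕ → ℕ), Continuous φ →
          ∀ n m : ℕ, BaireMeasurableSet {z | F (φ z) n = m}) →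
        -- and let `F` represent the same function on the Turing degrees
        (∀ x : ℕ → ℕ, LeT (F x) (F₀ x) ∧ LeT (F₀ x) (F x)) →
        -- then `F` is not uniformly invariant
        (¬ ∃ t : ℕ → ℕ, ∀ (e : ℕ) (x y : ℕ → ℕ), Via e x y → Via (t e) (F x) (F y)) ∧
        -- for some `e`, `F y` is not even an arbitrary function of `F x` when `x ≡_T y` via `e`
        ∃ (e : ℕ) (x y x' y' : ℕ → ℕ), Via e x y ∧ Via e x' y' ∧ F x = F x' ∧ F y ≠ F y' := by
  refine ⟨fun x y => ?_, F₀, measurable_F₀, fun x y h1 h2 => ⟨F₀_inv h1 h2, F₀_inv h2 h1⟩,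
    fun F hF hd => ?_⟩
  · rw [leT_iff]
    constructor
    · rintro ⟨c, hc⟩
      exact ⟨Encodable.encode c, by rwa [Denumerable.ofNat_encode]⟩
    · rintro ⟨i, hi⟩
      exact ⟨_, hi⟩
  · obtain ⟨i, j, x, y, x', y', h1, h2, h3, h4, h5, h6⟩ := main F hF hd
    have e1 : ∀ u v : ℕ → ℕ, Red i u v → Red j v u →
        Via (Nat.pair (Encodable.encode i) (Encodable.encode j)) u v := by
      intro u v g1 g2
      constructor
      · rw [Nat.unpair_pair, Denumerable.ofNat_encode]
        exact g1
      · rw [Nat.unpair_pair, Denumerable.ofNat_encode]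
        exact g2
    refine ⟨?_, _, x, y, x', y', e1 x y h1 h2, e1 x' y' h3 h4, h5, h6⟩
    rintro ⟨t, ht⟩
    have g1 := (ht _ x y (e1 x y h1 h2)).1
    have g2 := (ht _ x' y' (e1 x' y' h3 h4)).1
    rw [h5] at g1
    exact h6 (Red.unique g1 g2)

end Pool.Agent.Results.MP_f59448_lc.NotUniform
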